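import Pool.Agent.U375.Burl.Star

set_option autoImplicit false

namespace Pool.Agent.U375.Burl

variable {V ι : Type}

/-- Probes: chains which are closed under ancestors. -/
structure Probes (B : Burling V) (P : ι → Set V) : Prop where
  chain : ∀ i, ∀ x ∈ P i, ∀ y ∈ P i, x = y ∨ B.anc x y ∨ B.anc y x
  closed : ∀ i, ∀ x ∈ P i, ∀ z, B.anc z x → z ∈ P i

/-- The vertices of the next structure: a base copy, one copy for each probe, and a diagonal
vertex for each pair of probes. -/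
inductive Nx (V ι : Type) : Type
  | base : V → Nx V ι
  | copy : ι → V → Nx V ι
  | diag : ι → ι → Nx V ι

def Nx.equiv : Nx V ι ≃ V ⊕ (ι × V) ⊕ (ι × ι) where
  toFun
    | .base v => Sum.inl v
    | .copy i v => Sum.inr (Sum.inl (i, v))
    | .diag i j => Sum.inr (Sum.inr (i, j))
  invFun
    | Sum.inl v => .base v
    | Sum.inr (Sum.inl (i, v)) => .copy i v
    | Sum.inr (Sum.inr (i, j)) => .diag i j
  left_inv := by rintro (v | ⟨i, v⟩ | ⟨i, j⟩) <;> rfl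
  right_inv := by rintro (v | ⟨i, v⟩ | ⟨i, j⟩) <;> rfl

instance [Finite V] [Finite ι] : Finite (Nx V ι) := Finite.of_equiv _ Nx.equiv.symm

def Nx.anc (B : Burling V) (P : ι → Set V) : Nx V ι → Nx V ι → Prop
  | .base u, .base v => B.anc u v
  | .base u, .copy i _ => u ∈ P i
  | .base u, .diag i _ => u ∈ P i
  | .copy i u, .copy j v => i = j ∧ B.anc u v
  | _, _ => False

def Nx.arr (B : Burling V) (P : ι → Set V) : Nx V ι → Nx V ι → Prop
  | .base u, .base v => B.arr u v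
  | .copy i u, .copy j v => i = j ∧ B.arr u v
  | .diag i j, .copy k v => i = k ∧ v ∈ P j
  | _, _ => False

def Nx.rank (B : Burling V) (N : ℕ) : Nx V ι → ℕ
  | .base u => B.rank u
  | .copy _ u => B.rank u
  | .diag _ _ => N + 1

/-- The next Burling structure. -/
def Burling.next (B : Burling V) (P : ι → Set V) (hP : Probes B P) (N : ℕ)
    (hN : ∀ v, B.rank v ≤ N) : Burling (Nx V ι) where
  anc := Nx.anc B P
  arr := Nx.arr B P
  rank := Nx.rank B N
  anc_trans := by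
    rintro (u | ⟨i, u⟩ | ⟨i, i'⟩) (v | ⟨j, v⟩ | ⟨j, j'⟩) (w | ⟨k, w⟩ | ⟨k, k'⟩) h1 h2 <;>
      simp only [Nx.anc] at h1 h2 ⊢
    · exact B.anc_trans _ _ _ h1 h2
    · exact hP.closed _ _ h2 _ h1
    · exact hP.closed _ _ h2 _ h1
    · obtain ⟨rfl, -⟩ := h2
      exact h1
    · obtain ⟨rfl, h1⟩ := h1
      obtain ⟨rfl, h2⟩ := h2
      exact ⟨rfl, B.anc_trans _ _ _ h1 h2⟩
  anc_irrefl := by
    rintro (u | ⟨i, u⟩ | ⟨i, i'⟩) h <;> simp only [Nx.anc] at h
    · exact B.anc_irrefl _ h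
    · exact B.anc_irrefl _ h.2
  chain := by
    rintro (x | ⟨i, x⟩ | ⟨i, i'⟩) (y | ⟨j, y⟩ | ⟨j, j'⟩) (z | ⟨k, z⟩ | ⟨k, k'⟩) h1 h2 <;>
      simp only [Nx.anc, Nx.arr] at h1 h2 ⊢
    · rcases B.chain _ _ _ h1 h2 with h | h | h
      · exact Or.inl (by rw [h])
      · exact Or.inr (Or.inl h)
      · exact Or.inr (Or.inr h)
    · obtain ⟨rfl, h1⟩ := h1
      obtain ⟨rfl, h2⟩ := h2
      rcases B.chain _ _ _ h1 h2 with h | h | h
      · exact Or.inl (by rw [h])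
      · exact Or.inr (Or.inl ⟨rfl, h⟩)
      · exact Or.inr (Or.inr ⟨rfl, h⟩)
    · obtain ⟨rfl, h1⟩ := h1
      obtain ⟨rfl, h2⟩ := h2
      rcases hP.chain _ _ h1 _ h2 with h | h | h
      · exact Or.inl (by rw [h])
      · exact Or.inr (Or.inl ⟨rfl, h⟩)
      · exact Or.inr (Or.inr ⟨rfl, h⟩)
  down := by
    rintro (x | ⟨i, x⟩ | ⟨i, i'⟩) (y | ⟨j, y⟩ | ⟨j, j'⟩) (z | ⟨k, z⟩ | ⟨k, k'⟩) h1 h2 <;>
      simp only [Nx.anc, Nx.arr] at h1 h2 ⊢
    · exact B.down _ _ _ h1 h2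
    · obtain ⟨rfl, -⟩ := h1
      exact h2
    · obtain ⟨rfl, h1⟩ := h1
      obtain ⟨rfl, h2⟩ := h2
      exact ⟨rfl, B.down _ _ _ h1 h2⟩
    · obtain ⟨rfl, -⟩ := h1
      exact h2
  up := by
    rintro (x | ⟨i, x⟩ | ⟨i, i'⟩) (y | ⟨j, y⟩ | ⟨j, j'⟩) (z | ⟨k, z⟩ | ⟨k, k'⟩) h1 h2 <;>
      simp only [Nx.anc, Nx.arr] at h1 h2 ⊢
    · exact B.up _ _ _ h1 h2
    · obtain ⟨rfl, h1⟩ := h1
      exact Or.inr h2
    · obtain ⟨rfl, h1⟩ := h1
      obtain ⟨rfl, h2⟩ := h2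
      rcases B.up _ _ _ h1 h2 with h | h
      · exact Or.inl ⟨rfl, h⟩
      · exact Or.inr ⟨rfl, h⟩
    · obtain ⟨rfl, h1⟩ := h1
      exact Or.inr h2
    · obtain ⟨rfl, h1⟩ := h1
      obtain ⟨rfl, h2⟩ := h2
      exact Or.inl ⟨rfl, hP.closed _ _ h1 _ h2⟩
  inc := by
    rintro (x | ⟨i, x⟩ | ⟨i, i'⟩) (y | ⟨j, y⟩ | ⟨j, j'⟩) h1 <;>
      simp only [Nx.anc, Nx.arr] at h1 ⊢
    · exact B.inc _ _ h1
    · exact ⟨fun h => (B.inc _ _ h1.2).1 h.2, fun h => (B.inc _ _ h1.2).2 h.2⟩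
    · exact ⟨id, id⟩
  rank_lt := by
    rintro (x | ⟨i, x⟩ | ⟨i, i'⟩) (y | ⟨j, y⟩ | ⟨j, j'⟩) h1 <;>
      simp only [Nx.arr, Nx.rank] at h1 ⊢
    · exact B.rank_lt _ _ h1
    · exact B.rank_lt _ _ h1.2
    · exact Nat.lt_succ_of_le (hN y)

/-- The probes of the next structure. -/
def nextP (P : ι → Set V) : (ι × ι) ⊕ (ι × ι) → Set (Nx V ι)
  | Sum.inl (i, j) => {x | (∃ u ∈ P i, x = .base u) ∨ ∃ v ∈ P j, x = .copy i v}
  | Sum.inr (i, j) => {x | (∃ u ∈ P i, x = .base u) ∨ x = .diag i j}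

lemma nextProbes (B : Burling V) (P : ι → Set V) (hP : Probes B P) (N : ℕ)
    (hN : ∀ v, B.rank v ≤ N) : Probes (B.next P hP N hN) (nextP P) where
  chain := by
    rintro (⟨i, j⟩ | ⟨i, j⟩) x hx y hy
    · rcases hx with ⟨u, hu, rfl⟩ | ⟨u, hu, rfl⟩ <;> rcases hy with ⟨v, hv, rfl⟩ | ⟨v, hv, rfl⟩
      · rcases hP.chain _ _ hu _ hv with h | h | h
        · exact Or.inl (by rw [h])
        · exact Or.inr (Or.inl h)
        · exact Or.inr (Or.inr h)
      · exact Or.inr (Or.inl hu)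
      · exact Or.inr (Or.inr hv)
      · rcases hP.chain _ _ hu _ hv with h | h | h
        · exact Or.inl (by rw [h])
        · exact Or.inr (Or.inl ⟨rfl, h⟩)
        · exact Or.inr (Or.inr ⟨rfl, h⟩)
    · rcases hx with ⟨u, hu, rfl⟩ | rfl <;> rcases hy with ⟨v, hv, rfl⟩ | rfl
      · rcases hP.chain _ _ hu _ hv with h | h | h
        · exact Or.inl (by rw [h])
        · exact Or.inr (Or.inl h)
        · exact Or.inr (Or.inr h)
      · exact Or.inr (Or.inl hu)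
      · exact Or.inr (Or.inr hv)
      · exact Or.inl rfl
  closed := by
    rintro (⟨i, j⟩ | ⟨i, j⟩) x hx (z | ⟨k, z⟩ | ⟨k, k'⟩) hz
    · rcases hx with ⟨u, hu, rfl⟩ | ⟨u, hu, rfl⟩
      · exact Or.inl ⟨z, hP.closed _ _ hu _ hz, rfl⟩
      · exact Or.inl ⟨z, hz, rfl⟩
    · rcases hx with ⟨u, hu, rfl⟩ | ⟨u, hu, rfl⟩
      · exact absurd hz (by simp [Burling.next, Nx.anc])
      · obtain ⟨rfl, h⟩ := hz
        exact Or.inr ⟨z, hP.closed _ _ hu _ h, rfl⟩
    · rcases hx with ⟨u, hu, rfl⟩ | ⟨u, hu, rfl⟩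
      · exact absurd hz (by simp [Burling.next, Nx.anc])
      · exact absurd hz (by simp [Burling.next, Nx.anc])
    · rcases hx with ⟨u, hu, rfl⟩ | rfl
      · exact Or.inl ⟨z, hP.closed _ _ hu _ hz, rfl⟩
      · exact Or.inl ⟨z, hz, rfl⟩
    · rcases hx with ⟨u, hu, rfl⟩ | rfl
      · exact absurd hz (by simp [Burling.next, Nx.anc])
      · exact absurd hz (by simp [Burling.next, Nx.anc])
    · rcases hx with ⟨u, hu, rfl⟩ | rfl
      · exact absurd hz (by simp [Burling.next, Nx.anc])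
      · exact absurd hz (by simp [Burling.next, Nx.anc])

/-- In every proper colouring some probe has at least `n` colours. -/
def Big (B : Burling V) (P : ι → Set V) (n : ℕ) : Prop :=
  ∀ c : V → ℕ, (∀ x y, B.arr x y → c x ≠ c y) → ∃ i, n ≤ (c '' P i).ncard

lemma nextBig [Finite V] [Finite ι] (B : Burling V) (P : ι → Set V) (hP : Probes B P) (N : ℕ)
    (hN : ∀ v, B.rank v ≤ N) (n : ℕ) (h : Big B P n) :
    Big (B.next P hP N hN) (nextP P) (n + 1) := by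
  intro c hc
  obtain ⟨i, hi⟩ := h (fun v => c (.base v)) (fun x y hxy => hc _ _ hxy)
  obtain ⟨j, hj⟩ := h (fun v => c (.copy i v)) (fun x y hxy => hc _ _ ⟨rfl, hxy⟩)
  set A : Set ℕ := (fun v => c (.base v)) '' P i with hA
  set D : Set ℕ := (fun v => c (.copy i v)) '' P j with hD
  have hAf : A.Finite := (Set.toFinite (P i)).image _
  have hDf : D.Finite := (Set.toFinite (P j)).image _
  by_cases hsub : D ⊆ A
  · refine ⟨Sum.inr (i, j), ?_⟩
    have hdn : c (.diag i j) ∉ D := by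
      rintro ⟨v, hv, hv2⟩
      exact hc (.diag i j) (.copy i v) ⟨rfl, hv⟩ hv2.symm
    have h1 : insert (c (.diag i j)) D ⊆ c '' nextP P (Sum.inr (i, j)) := by
      rintro x (rfl | hx)
      · exact ⟨_, Or.inr rfl, rfl⟩
      · obtain ⟨u, hu, rfl⟩ := hsub hx
        exact ⟨_, Or.inl ⟨u, hu, rfl⟩, rfl⟩
    have h2 : (insert (c (.diag i j)) D).ncard = D.ncard + 1 := Set.ncard_insert_of_notMem hdn hDf
    have h3 := Set.ncard_le_ncard h1 (Set.toFinite _)
    omega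
  · refine ⟨Sum.inl (i, j), ?_⟩
    rw [Set.not_subset] at hsub
    obtain ⟨d, hd, hdA⟩ := hsub
    have h1 : insert d A ⊆ c '' nextP P (Sum.inl (i, j)) := by
      rintro x (rfl | hx)
      · obtain ⟨v, hv, rfl⟩ := hd
        exact ⟨_, Or.inr ⟨v, hv, rfl⟩, rfl⟩
      · obtain ⟨u, hu, rfl⟩ := hx
        exact ⟨_, Or.inl ⟨u, hu, rfl⟩, rfl⟩
    have h2 : (insert d A).ncard = A.ncard + 1 := Set.ncard_insert_of_notMem hdA hAf
    have h3 := Set.ncard_le_ncard h1 (Set.toFinite _)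
    omega

theorem exists_big (n : ℕ) : ∃ (V ι : Type) (_ : Finite V) (_ : Finite ι) (B : Burling V)
    (P : ι → Set V), Probes B P ∧ Big B P n := by
  induction n with
  | zero =>
    refine ⟨Empty, Unit, inferInstance, inferInstance,
      { anc := fun _ _ => False, arr := fun _ _ => False, rank := fun _ => 0,
        anc_trans := fun u => u.elim, anc_irrefl := fun u => u.elim, chain := fun u => u.elim,
        down := fun u => u.elim, up := fun u => u.elim, inc := fun u => u.elim,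
        rank_lt := fun u => u.elim }, fun _ => ∅, ⟨fun _ x => x.elim, fun _ x => x.elim⟩,
      fun c _ => ⟨(), Nat.zero_le _⟩⟩
  | succ n ih =>
    obtain ⟨V, ι, hV, hι, B, P, hP, hB⟩ := ih
    have := Fintype.ofFinite V
    have hN : ∀ v, B.rank v ≤ Finset.univ.sup B.rank := fun v => Finset.le_sup (Finset.mem_univ v)
    exact ⟨Nx V ι, (ι × ι) ⊕ (ι × ι), inferInstance, inferInstance, B.next P hP _ hN, nextP P,
      nextProbes B P hP _ hN, nextBig B P hP _ hN n hB⟩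

/-- The chromatic number of Burling graphs is unbounded. -/
theorem not_colorable (c : ℕ) : ∃ (V : Type) (_ : Finite V) (B : Burling V),
    ¬ B.graph.Colorable c := by
  obtain ⟨V, ι, hV, hι, B, P, hP, hB⟩ := exists_big (c + 1)
  refine ⟨V, hV, B, ?_⟩
  rintro ⟨C⟩
  obtain ⟨i, hi⟩ := hB (fun v => (C v).val) (fun x y hxy h =>
    C.valid (v := x) (w := y) (Or.inl hxy) (Fin.ext h))
  have h1 : (fun v => (C v).val) '' P i ⊆ (Finset.range c : Set ℕ) := by
    rintro _ ⟨v, -, rfl⟩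
    simp
  have h2 := Set.ncard_le_ncard h1 (Finset.finite_toSet _)
  rw [Set.ncard_coe_finset, Finset.card_range] at h2
  omega

end Pool.Agent.U375.Burl
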