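import Mathlib

/-!
Abstract Burling graphs (after Pournajafi and Trotignon): two relations `anc` (ancestor in a tree)
and `arr` (arrows), the graph being the underlying graph of `arr`. Every induced subgraph of such a
graph is `3`-colourable or has a star cutset, the graphs are triangle-free and their chromatic
number is unbounded.
-/

set_option autoImplicit false

namespace Pool.Agent.U375.Burl

/-- Abstract Burling structures. `anc u v`: `u` is a proper ancestor of `v`; `arr x y`: there is an
arrow from `x` to `y`. -/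
structure Burling (V : Type) where
  anc : V → V → Prop
  arr : V → V → Prop
  rank : V → ℕ
  anc_trans : ∀ u v w, anc u v → anc v w → anc u w
  anc_irrefl : ∀ u, ¬ anc u u
  chain : ∀ x y z, arr x y → arr x z → y = z ∨ anc y z ∨ anc z y
  down : ∀ x y z, arr x y → anc z x → anc z y
  up : ∀ x y z, arr x y → anc z y → arr x z ∨ anc z x
  inc : ∀ x y, arr x y → ¬ anc x y ∧ ¬ anc y x
  rank_lt : ∀ x y, arr x y → rank y < rank x

variable {V : Type}

/-- The underlying graph of a Burling structure. -/
def Burling.graph (B : Burling V) : SimpleGraph V where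
  Adj x y := B.arr x y ∨ B.arr y x
  symm := ⟨fun _ _ h => h.symm⟩
  loopless := ⟨fun x h => by
    have := B.rank_lt x x (h.elim id id)
    omega⟩

lemma Burling.adj (B : Burling V) (x y : V) : B.graph.Adj x y ↔ B.arr x y ∨ B.arr y x := Iff.rfl

lemma Burling.no_two (B : Burling V) {x y z : V} (h1 : B.arr x y) (h2 : B.arr x z)
    (h3 : B.arr y z) : False := by
  rcases B.chain x y z h1 h2 with h | h | h
  · subst h
    have := B.rank_lt _ _ h3
    omega
  · exact (B.inc _ _ h3).1 h
  · exact (B.inc _ _ h3).2 h

lemma Burling.no_tri (B : Burling V) {x y z : V} (h1 : B.graph.Adj x y) (h2 : B.graph.Adj x z)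
    (h3 : B.graph.Adj y z) : False := by
  rw [B.adj] at h1 h2 h3
  rcases h1 with h1 | h1 <;> rcases h2 with h2 | h2 <;> rcases h3 with h3 | h3
  · exact B.no_two h1 h2 h3
  · exact B.no_two h2 h1 h3
  · have a := B.rank_lt _ _ h1
    have b := B.rank_lt _ _ h2
    have c := B.rank_lt _ _ h3
    omega
  · exact B.no_two h2 h3 h1
  · exact B.no_two h1 h3 h2
  · have a := B.rank_lt _ _ h1
    have b := B.rank_lt _ _ h2
    have c := B.rank_lt _ _ h3
    omega
  · exact B.no_two h3 h1 h2
  · exact B.no_two h3 h2 h1

theorem Burling.cliqueFree (B : Burling V) : B.graph.CliqueFree 3 := by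
  classical
  intro s hs
  rw [SimpleGraph.is3Clique_iff] at hs
  obtain ⟨a, b, c, hab, hac, hbc, -⟩ := hs
  exact B.no_tri hab hac hbc

/-- An antichain induces a forest, in particular it can be coloured with two colours. -/
lemma Burling.antichain (B : Burling V) (A : Set V)
    (hA : ∀ x ∈ A, ∀ y ∈ A, ¬ B.anc x y) (n : ℕ) :
    ∃ f : V → Bool, ∀ x ∈ A, ∀ y ∈ A, B.rank x < n → B.arr x y → f x ≠ f y := by
  classical
  induction n with
  | zero => exact ⟨fun _ => true, fun x _ y _ h => absurd h (by omega)⟩
  | succ n ih =>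
    obtain ⟨f, hf⟩ := ih
    refine ⟨fun x => if h : B.rank x = n ∧ ∃ y ∈ A, B.arr x y then !(f h.2.choose) else f x, ?_⟩
    intro x hx y hy hr hxy
    have hyx := B.rank_lt _ _ hxy
    have h2 : ¬ (B.rank y = n ∧ ∃ z ∈ A, B.arr y z) := by
      rintro ⟨h, -⟩
      omega
    simp only [dif_neg h2]
    by_cases hn : B.rank x = n
    · have h1 : B.rank x = n ∧ ∃ z ∈ A, B.arr x z := ⟨hn, y, hy, hxy⟩
      rw [dif_pos h1]
      have h3 := h1.2.choose_spec
      rcases B.chain x _ y h3.2 hxy with h | h | h
      · rw [h]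
        simp
      · exact absurd h (hA _ h3.1 _ hy)
      · exact absurd h (hA _ hy _ h3.1)
    · have h1 : ¬ (B.rank x = n ∧ ∃ z ∈ A, B.arr x z) := fun h => hn h.1
      rw [dif_neg h1]
      exact hf x hx y hy (by omega) hxy

lemma Burling.antichain' [Fintype V] (B : Burling V) (A : Set V)
    (hA : ∀ x ∈ A, ∀ y ∈ A, ¬ B.anc x y) :
    ∃ f : V → Bool, ∀ x ∈ A, ∀ y ∈ A, B.arr x y → f x ≠ f y := by
  obtain ⟨f, hf⟩ := B.antichain A hA (Finset.univ.sup B.rank + 1)
  refine ⟨f, fun x hx y hy h => hf x hx y hy ?_ h⟩
  exact Nat.lt_succ_of_le (Finset.le_sup (Finset.mem_univ x))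

/-- **Every induced subgraph of a Burling graph is `3`-colourable or has a star cutset.** -/
theorem Burling.star [Fintype V] (B : Burling V) (T : Set V) :
    (B.graph.induce T).Colorable 3 ∨
        ∃ S : Set V, S ⊆ T ∧ (∃ v ∈ S, ∀ w ∈ S, w ≠ v → B.graph.Adj v w) ∧
          ∃ a b : ↥(T \ S), ¬ (B.graph.induce (T \ S)).Reachable a b := by
  classical
  by_cases hcase : ∃ y ∈ T, ∃ z ∈ T, B.anc y z ∧ ∃ w ∈ T, w ≠ y ∧ ¬ B.anc y w ∧ ¬ B.arr w y
  · right
    obtain ⟨y, hy, z, hz, hyz, w, hw, hwy, hyw, hwy'⟩ := hcase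
    refine ⟨{x | x ∈ T ∧ (x = y ∨ B.arr x y)}, fun x hx => hx.1, ⟨y, ⟨hy, Or.inl rfl⟩, ?_⟩,
      ⟨z, hz, ?_⟩, ⟨w, hw, ?_⟩, ?_⟩
    · rintro x ⟨-, hx | hx⟩ hxy
      · exact absurd hx hxy
      · exact Or.inr hx
    · rintro ⟨-, h | h⟩
      · subst h
        exact B.anc_irrefl _ hyz
      · exact (B.inc _ _ h).2 hyz
    · rintro ⟨-, h | h⟩
      · exact hwy h
      · exact hwy' h
    · rintro ⟨p⟩
      have key : ∀ (a b : ↥(T \ {x | x ∈ T ∧ (x = y ∨ B.arr x y)})),
          (B.graph.induce (T \ {x | x ∈ T ∧ (x = y ∨ B.arr x y)})).Walk a b →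
          B.anc y a.1 → B.anc y b.1 := by
        intro a b q
        induction q with
        | nil => exact id
        | @cons u v w h q ih =>
          intro hu
          apply ih
          have h' : B.arr u.1 v.1 ∨ B.arr v.1 u.1 := h
          rcases h' with h' | h'
          · exact B.down _ _ _ h' hu
          · rcases B.up _ _ _ h' hu with h2 | h2
            · exact absurd ⟨v.2.1, Or.inr h2⟩ v.2.2
            · exact h2
      exact hyw (key _ _ p hyz)
  · left
    push Not at hcase
    by_cases hint : ∃ y ∈ T, ∃ z ∈ T, B.anc y z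
    · obtain ⟨y, hy, z, hz, hyz⟩ := hint
      have hall : ∀ w ∈ T, w ≠ y → ¬ B.anc y w → B.arr w y := fun w hw h1 h2 =>
        hcase y hy z hz hyz w hw h1 h2
      obtain ⟨f, hf⟩ := B.antichain' {x | x ∈ T ∧ B.anc y x} (by
        rintro u ⟨hu, hyu⟩ v ⟨hv, hyv⟩ huv
        have h3 := hcase u hu v hv huv y hy
          (by rintro rfl; exact B.anc_irrefl _ hyu)
          (fun h => B.anc_irrefl _ (B.anc_trans _ _ _ h hyu))
        exact (B.inc _ _ h3).1 hyu)
      refine ⟨SimpleGraph.Coloring.mk (fun x : T =>
        if x.1 = y then (0 : Fin 3) else if B.anc y x.1 then (if f x.1 then 0 else 1) else 2) ?_⟩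
      have key : ∀ u v : T, B.arr u.1 v.1 →
          (if u.1 = y then (0 : Fin 3) else if B.anc y u.1 then (if f u.1 then 0 else 1) else 2) ≠
          (if v.1 = y then (0 : Fin 3) else if B.anc y v.1 then (if f v.1 then 0 else 1) else 2) := by
        intro u v h
        by_cases hu : u.1 = y
        · rw [if_pos hu]
          have hv : v.1 ≠ y := by
            intro hv
            rw [hu, hv] at h
            have := B.rank_lt _ _ h
            omega
          rw [if_neg hv]
          have hv2 : ¬ B.anc y v.1 := by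
            rw [← hu]
            exact (B.inc _ _ h).1
          rw [if_neg hv2]
          decide
        · rw [if_neg hu]
          by_cases hv : v.1 = y
          · rw [if_pos hv]
            have hu2 : ¬ B.anc y u.1 := by
              rw [← hv]
              exact (B.inc _ _ h).2
            rw [if_neg hu2]
            decide
          · rw [if_neg hv]
            by_cases hu2 : B.anc y u.1
            · have hv2 : B.anc y v.1 := B.down _ _ _ h hu2
              rw [if_pos hu2, if_pos hv2]
              have := hf u.1 ⟨u.2, hu2⟩ v.1 ⟨v.2, hv2⟩ h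
              revert this
              cases f u.1 <;> cases f v.1 <;> simp
            · rw [if_neg hu2]
              by_cases hv2 : B.anc y v.1
              · rw [if_pos hv2]
                cases f v.1 <;> simp
              · exfalso
                have h3 := hall _ u.2 hu hu2
                have h4 := hall _ v.2 hv hv2
                exact B.no_two h h3 h4
      intro u v h
      have h' : B.arr u.1 v.1 ∨ B.arr v.1 u.1 := h
      rcases h' with h' | h'
      · exact key u v h'
      · exact (key v u h').symm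
    · push Not at hint
      obtain ⟨f, hf⟩ := B.antichain' T hint
      refine ⟨SimpleGraph.Coloring.mk (fun x : T => if f x.1 then (0 : Fin 3) else 1) ?_⟩
      intro u v h
      have h' : B.arr u.1 v.1 ∨ B.arr v.1 u.1 := h
      have h2 : f u.1 ≠ f v.1 := by
        rcases h' with h' | h'
        · exact hf _ u.2 _ v.2 h'
        · exact (hf _ v.2 _ u.2 h').symm
      revert h2
      cases f u.1 <;> cases f v.1 <;> simp

end Pool.Agent.U375.Burl
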